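import Pool.Agent.Y80.KM.Defs2

/-!
Project KM (helper80), job TL: the Tits type bracket is a Lie bracket and `gl_N` acts on it by
derivations.
-/

set_option autoImplicit false

open scoped BigOperators TensorProduct

namespace Pool.Agent.Y484.KM

open Pool.Agent.Y80.KM

section cbrl

variable {k A : Type*} [Field k] [NonUnitalNonAssocRing A] [Module k A] {N : ℕ}

theorem diag_add (a b : A) : (Matrix.diagonal fun _ : Fin N => a + b) =
    (Matrix.diagonal fun _ => a) + Matrix.diagonal fun _ => b := by
  rw [Matrix.diagonal_add]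

theorem diag_neg (a : A) : (Matrix.diagonal fun _ : Fin N => -a) =
    - Matrix.diagonal fun _ => a := by
  rw [← Matrix.diagonal_neg]

theorem diag_smul (c : k) (a : A) : (Matrix.diagonal fun _ : Fin N => c • a) =
    c • Matrix.diagonal fun _ => a := by
  rw [← Matrix.diagonal_smul]
  rfl

theorem cbr_add_left (M M' P : Matrix (Fin N) (Fin N) A) :
    cbr k (M + M') P = cbr k M P + cbr k M' P := by
  simp only [cbr, add_mul, mul_add]
  have : M * P + M' * P - (P * M + P * M') = (M * P - P * M) + (M' * P - P * M') := by abel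
  rw [this, Matrix.trace_add, smul_add, diag_add]
  abel

theorem cbr_swap (M P : Matrix (Fin N) (Fin N) A) : cbr k M P = - cbr k P M := by
  simp only [cbr]
  have : M * P - P * M = - (P * M - M * P) := by abel
  rw [this, Matrix.trace_neg, smul_neg, diag_neg]
  abel

theorem cbr_add_right (M P P' : Matrix (Fin N) (Fin N) A) :
    cbr k M (P + P') = cbr k M P + cbr k M P' := by
  rw [cbr_swap M, cbr_add_left, cbr_swap P, cbr_swap P']
  abel

theorem cbr_neg_left (M P : Matrix (Fin N) (Fin N) A) : cbr k (-M) P = - cbr k M P := by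
  rw [eq_neg_iff_add_eq_zero, ← cbr_add_left, neg_add_cancel]
  simp [cbr]

theorem cbr_neg_right (M P : Matrix (Fin N) (Fin N) A) : cbr k M (-P) = - cbr k M P := by
  rw [cbr_swap M, cbr_neg_left, cbr_swap P, neg_neg]

theorem cbr_sub_left (M M' P : Matrix (Fin N) (Fin N) A) :
    cbr k (M - M') P = cbr k M P - cbr k M' P := by
  rw [sub_eq_add_neg, cbr_add_left, cbr_neg_left, ← sub_eq_add_neg]

theorem cbr_sub_right (M P P' : Matrix (Fin N) (Fin N) A) :
    cbr k M (P - P') = cbr k M P - cbr k M P' := by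
  rw [sub_eq_add_neg, cbr_add_right, cbr_neg_right, ← sub_eq_add_neg]

theorem cbr_smul_left [IsScalarTower k A A] [SMulCommClass k A A] (c : k)
    (M P : Matrix (Fin N) (Fin N) A) : cbr k (c • M) P = c • cbr k M P := by
  simp only [cbr, smul_mul_assoc, mul_smul_comm, ← smul_sub, Matrix.trace_smul]
  rw [smul_comm, diag_smul]
  simp only [smul_sub]

theorem cbr_smul_right [IsScalarTower k A A] [SMulCommClass k A A] (c : k)
    (M P : Matrix (Fin N) (Fin N) A) : cbr k M (c • P) = c • cbr k M P := by
  rw [cbr_swap M, cbr_smul_left, cbr_swap P, smul_neg, neg_neg]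

theorem cbr_self (M : Matrix (Fin N) (Fin N) A) : cbr k M M = 0 := by
  simp [cbr]

/-- a derivation applied to the entries is a derivation of `cbr` -/
theorem cbr_map (δ : A →ₗ[k] A) (hδ : ∀ x y, δ (x * y) = δ x * y + x * δ y)
    (M P : Matrix (Fin N) (Fin N) A) :
    (cbr k M P).map δ = cbr k (M.map δ) P + cbr k M (P.map δ) := by
  have h1 : ∀ M P : Matrix (Fin N) (Fin N) A, (M * P).map δ = M.map δ * P + M * P.map δ := by
    intro M P
    ext i j
    simp [Matrix.mul_apply, hδ, Finset.sum_add_distrib]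
  have h2 : (M * P - P * M).map δ = (M.map δ * P - P * M.map δ) + (M * P.map δ - P.map δ * M) := by
    rw [Matrix.map_sub _ (map_sub δ), h1, h1]
    abel
  simp only [cbr]
  rw [Matrix.map_sub _ (map_sub δ), h2, Matrix.diagonal_map (map_zero δ)]
  have h3 : δ ((N : k)⁻¹ • (M * P - P * M).trace) =
      (N : k)⁻¹ • (M.map δ * P - P * M.map δ).trace +
        (N : k)⁻¹ • (M * P.map δ - P.map δ * M).trace := by
    rw [map_smul, ← trace_map_linear, h2, Matrix.trace_add, smul_add]
  simp only [h3, diag_add]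
  abel

end cbrl

section twl

variable {k A : Type*} [Field k] [NonUnitalNonAssocRing A] [Module k A] {N : ℕ}

theorem tw_add_left (M M' P : Matrix (Fin N) (Fin N) A) :
    tw k (M + M') P = tw k M P + tw k M' P := by
  simp [tw, Finset.sum_add_distrib]

theorem tw_add_right (M P P' : Matrix (Fin N) (Fin N) A) :
    tw k M (P + P') = tw k M P + tw k M P' := by
  simp [tw, Finset.sum_add_distrib]

theorem tw_neg_left (M P : Matrix (Fin N) (Fin N) A) : tw k (-M) P = - tw k M P := by
  simp [tw]

theorem tw_neg_right (M P : Matrix (Fin N) (Fin N) A) : tw k M (-P) = - tw k M P := by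
  simp [tw]

theorem tw_sub_left (M M' P : Matrix (Fin N) (Fin N) A) :
    tw k (M - M') P = tw k M P - tw k M' P := by
  simp [tw, Finset.sum_sub_distrib]

theorem tw_sub_right (M P P' : Matrix (Fin N) (Fin N) A) :
    tw k M (P - P') = tw k M P - tw k M P' := by
  simp [tw, Finset.sum_sub_distrib]

theorem tw_smul_left (c : k) (M P : Matrix (Fin N) (Fin N) A) :
    tw k (c • M) P = c • tw k M P := by
  simp [tw, Finset.smul_sum]

theorem tw_smul_right (c : k) (M P : Matrix (Fin N) (Fin N) A) :
    tw k M (c • P) = c • tw k M P := by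
  simp [tw, Finset.smul_sum]

theorem tw_swap (M P : Matrix (Fin N) (Fin N) A) : tw k M P = - tw k P M := by
  simp only [tw]
  rw [Finset.sum_comm, ← Finset.sum_neg_distrib]
  refine Finset.sum_congr rfl fun i _ => ?_
  rw [← Finset.sum_neg_distrib]
  refine Finset.sum_congr rfl fun j _ => ?_
  exact wedge_swap k A _ _

theorem tw_self [CharZero k] (M : Matrix (Fin N) (Fin N) A) : tw k M M = 0 := by
  have h := tw_swap (k := k) M M
  have h2 : (2 : k) • tw k M M = 0 := by
    rw [two_smul]
    nth_rewrite 1 [h]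
    simp
  exact (smul_eq_zero.1 h2).resolve_left two_ne_zero

theorem tw_map (T : TitsData k A N) (b : BSp k A) (M P : Matrix (Fin N) (Fin N) A) :
    T.Bact b (tw k M P) = tw k (M.map (T.Dact b)) P + tw k M (P.map (T.Dact b)) := by
  simp [tw, Finset.sum_add_distrib]

theorem tw_diag (a : A) (P : Matrix (Fin N) (Fin N) A) :
    tw k (Matrix.diagonal fun _ => a) P = wedge k A a P.trace := by
  simp only [tw, Matrix.trace, map_sum]
  refine Finset.sum_congr rfl fun i _ => ?_
  rw [Finset.sum_eq_single i]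
  · simp
  · intro j _ hj
    rw [Matrix.diagonal_apply_ne' _ hj]
    simp
  · simp

theorem tw_cyc_mul (M P Q : Matrix (Fin N) (Fin N) A) :
    tw k (M * P) Q + tw k (P * Q) M + tw k (Q * M) P = 0 := by
  have h1 : ∀ M P Q : Matrix (Fin N) (Fin N) A, tw k (M * P) Q =
      ∑ i, ∑ j, ∑ l, wedge k A (M i l * P l j) (Q j i) := by
    intro M P Q
    simp [tw, Matrix.mul_apply]
  have h2 : tw k (P * Q) M = ∑ i, ∑ j, ∑ l, wedge k A (P l j * Q j i) (M i l) := by
    rw [h1]
    calc ∑ i, ∑ j, ∑ l, wedge k A (P i l * Q l j) (M j i)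
        = ∑ j, ∑ i, ∑ l, wedge k A (P i l * Q l j) (M j i) := Finset.sum_comm
      _ = ∑ j, ∑ l, ∑ i, wedge k A (P i l * Q l j) (M j i) :=
          Finset.sum_congr rfl fun j _ => Finset.sum_comm
  have h3 : tw k (Q * M) P = ∑ i, ∑ j, ∑ l, wedge k A (Q j i * M i l) (P l j) := by
    rw [h1]
    calc ∑ j, ∑ l, ∑ i, wedge k A (Q j i * M i l) (P l j)
        = ∑ j, ∑ i, ∑ l, wedge k A (Q j i * M i l) (P l j) :=
          Finset.sum_congr rfl fun j _ => Finset.sum_comm
      _ = ∑ i, ∑ j, ∑ l, wedge k A (Q j i * M i l) (P l j) := Finset.sum_comm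
  rw [h1, h2, h3, ← Finset.sum_add_distrib, ← Finset.sum_add_distrib]
  refine Finset.sum_eq_zero fun i _ => ?_
  rw [← Finset.sum_add_distrib, ← Finset.sum_add_distrib]
  refine Finset.sum_eq_zero fun j _ => ?_
  rw [← Finset.sum_add_distrib, ← Finset.sum_add_distrib]
  refine Finset.sum_eq_zero fun l _ => ?_
  exact wedge_cyc k A _ _ _

theorem tw_cyc (M P Q : Matrix (Fin N) (Fin N) A) (hM : M.trace = 0) (hP : P.trace = 0)
    (hQ : Q.trace = 0) :
    tw k (cbr k M P) Q + tw k (cbr k P Q) M + tw k (cbr k Q M) P = 0 := by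
  have h1 := tw_cyc_mul (k := k) M P Q
  have h2 := tw_cyc_mul (k := k) P M Q
  simp only [cbr, tw_sub_left, tw_diag, hM, hP, hQ, map_zero, sub_zero]
  have : tw k (M * P) Q - tw k (P * M) Q + (tw k (P * Q) M - tw k (Q * P) M) +
      (tw k (Q * M) P - tw k (M * Q) P) =
      (tw k (M * P) Q + tw k (P * Q) M + tw k (Q * M) P) -
      (tw k (P * M) Q + tw k (M * Q) P + tw k (Q * P) M) := by abel
  rw [this, h1, h2, sub_zero]

end twl

section maps

variable {k A : Type*} [Field k] [NonUnitalNonAssocRing A] [Module k A] {N : ℕ}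

theorem map_sum_op {ι : Type*} (s : Finset ι) (f : ι → A →ₗ[k] A) (M : Matrix (Fin N) (Fin N) A) :
    M.map (∑ i ∈ s, f i : A →ₗ[k] A) = ∑ i ∈ s, M.map (f i) := by
  ext a b
  simp [Matrix.sum_apply]

theorem map_add_op (f g : A →ₗ[k] A) (M : Matrix (Fin N) (Fin N) A) :
    M.map (f + g : A →ₗ[k] A) = M.map f + M.map g := by
  ext a b; simp

theorem map_sub_op (f g : A →ₗ[k] A) (M : Matrix (Fin N) (Fin N) A) :
    M.map (f - g : A →ₗ[k] A) = M.map f - M.map g := by
  ext a b; simp

theorem map_smul_op (c : k) (f : A →ₗ[k] A) (M : Matrix (Fin N) (Fin N) A) :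
    M.map (c • f : A →ₗ[k] A) = c • M.map f := by
  ext a b; simp

theorem map_neg_op (f : A →ₗ[k] A) (M : Matrix (Fin N) (Fin N) A) :
    M.map (-f : A →ₗ[k] A) = - M.map f := by
  ext a b; simp

theorem map_zero_op (M : Matrix (Fin N) (Fin N) A) :
    M.map (0 : A →ₗ[k] A) = 0 := by
  ext a b; simp

theorem map_add_mat (f : A →ₗ[k] A) (M P : Matrix (Fin N) (Fin N) A) :
    (M + P).map f = M.map f + P.map f := by
  ext a b; simp

theorem map_sub_mat (f : A →ₗ[k] A) (M P : Matrix (Fin N) (Fin N) A) :
    (M - P).map f = M.map f - P.map f := by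
  ext a b; simp

theorem map_smul_mat (c : k) (f : A →ₗ[k] A) (M : Matrix (Fin N) (Fin N) A) :
    (c • M).map f = c • M.map f := by
  ext a b; simp

theorem Dact_tw (T : TitsData k A N) (M P Q : Matrix (Fin N) (Fin N) A) :
    Q.map (T.Dact (tw k M P)) = ∑ i, ∑ j, Q.map (T.D (M i j) (P j i)) := by
  simp only [tw, map_sum, TitsData.Dact_wedge, map_sum_op]

theorem jac_mat (T : TitsData k A N) (M M' M'' : Matrix (Fin N) (Fin N) A) (h : M.trace = 0)
    (h' : M'.trace = 0) (h'' : M''.trace = 0) :
    (cbr k (cbr k M M') M'' + cbr k (cbr k M' M'') M + cbr k (cbr k M'' M) M') +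
      T.c • (M''.map (T.Dact (tw k M M')) + M.map (T.Dact (tw k M' M'')) +
        M'.map (T.Dact (tw k M'' M))) = 0 := by
  rw [Dact_tw, Dact_tw, Dact_tw]
  exact T.jacobi M M' M'' h h' h''

/-- the naturality of `D` with respect to the derivations `D_{a,b}` -/
def HNat (T : TitsData k A N) : Prop := ∀ a b x y z, T.D a b (T.D x y z) =
  T.D (T.D a b x) y z + T.D x (T.D a b y) z + T.D x y (T.D a b z)

theorem Bact_swap (T : TitsData k A N) (b b' : BSp k A) : T.Bact b b' = - T.Bact b' b := by
  rw [eq_neg_iff_add_eq_zero]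
  have h : T.Bact + T.Bact.flip = 0 := by
    refine bSp_ext fun x y => ?_
    refine bSp_ext fun p q => ?_
    simp only [LinearMap.add_apply, LinearMap.flip_apply, TitsData.Bact_wedge,
      TitsData.Dact_wedge, LinearMap.zero_apply]
    exact T.D_skew x y p q
  have := LinearMap.congr_fun (LinearMap.congr_fun h b) b'
  simpa using this

theorem Bact_self [CharZero k] (T : TitsData k A N) (b : BSp k A) : T.Bact b b = 0 := by
  have h := Bact_swap T b b
  have h2 : (2 : k) • T.Bact b b = 0 := by
    rw [two_smul]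
    nth_rewrite 1 [h]
    simp
  exact (smul_eq_zero.1 h2).resolve_left two_ne_zero

theorem Dact_nat (T : TitsData k A N) (hT : HNat T) (b : BSp k A) (x y z : A) :
    T.Dact b (T.D x y z) = T.D (T.Dact b x) y z + T.D x (T.Dact b y) z +
      T.D x y (T.Dact b z) := by
  obtain ⟨t, rfl⟩ := Submodule.mkQ_surjective _ b
  induction t using TensorProduct.induction_on with
  | zero => simp
  | tmul a b =>
    have := T.Dact_wedge a b
    rw [wedge_apply] at this
    rw [this]
    exact hT a b x y z
  | add u v hu hv =>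
    simp only [map_add, LinearMap.add_apply, hu, hv]
    abel

theorem Dact_Bact (T : TitsData k A N) (hT : HNat T) (b b' : BSp k A) (z : A) :
    T.Dact (T.Bact b b') z = T.Dact b (T.Dact b' z) - T.Dact b' (T.Dact b z) := by
  obtain ⟨t, rfl⟩ := Submodule.mkQ_surjective _ b'
  induction t using TensorProduct.induction_on with
  | zero => simp
  | tmul x y =>
    have h1 := T.Dact_wedge x y
    have h2 := T.Bact_wedge b x y
    rw [wedge_apply] at h1 h2
    rw [h1, h2, map_add, LinearMap.add_apply, TitsData.Dact_wedge, TitsData.Dact_wedge,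
      Dact_nat T hT]
    abel
  | add u v hu hv =>
    simp only [map_add, LinearMap.add_apply, hu, hv]
    abel

theorem Bact_jac (T : TitsData k A N) (hT : HNat T) (a b c : BSp k A) :
    T.Bact a (T.Bact b c) = T.Bact (T.Bact a b) c + T.Bact b (T.Bact a c) := by
  obtain ⟨t, rfl⟩ := Submodule.mkQ_surjective _ c
  induction t using TensorProduct.induction_on with
  | zero => simp
  | tmul x y =>
    have h2 := fun b => T.Bact_wedge b x y
    simp only [wedge_apply] at h2
    rw [h2, h2, h2]
    simp only [map_add, ← wedge_apply, TitsData.Bact_wedge, Dact_Bact T hT, map_sub,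
      LinearMap.sub_apply]
    abel
  | add u v hu hv =>
    simp only [map_add, hu, hv]
    abel

/-- if `c ≠ 0` and `N ≥ 2` the operators `D_{a,b}` are natural for all derivations of `A` -/
theorem D_nat_of (T : TitsData k A N) (hN : 2 ≤ N) (hc : T.c ≠ 0) (δ : A →ₗ[k] A)
    (hδ : ∀ x y, δ (x * y) = δ x * y + x * δ y) (x y z : A) :
    δ (T.D x y z) = T.D (δ x) y z + T.D x (δ y) z + T.D x y (δ z) := by
  set i0 : Fin N := ⟨0, by omega⟩ with hi0
  set i1 : Fin N := ⟨1, by omega⟩ with hi1
  have h01 : i0 ≠ i1 := by simp [hi0, hi1]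
  have h10 : i1 ≠ i0 := h01.symm
  -- the matrices
  let Mx : A → Matrix (Fin N) (Fin N) A := fun x => Matrix.single i0 i1 x
  let My : A → Matrix (Fin N) (Fin N) A := fun y => Matrix.single i1 i0 y
  let Mz : A → Matrix (Fin N) (Fin N) A := fun z => Matrix.single i0 i0 z - Matrix.single i1 i1 z
  have tx : ∀ x, (Mx x).trace = 0 := fun x => Matrix.trace_single_eq_of_ne _ _ _ h01
  have ty : ∀ y, (My y).trace = 0 := fun y => Matrix.trace_single_eq_of_ne _ _ _ h10
  have tz : ∀ z, (Mz z).trace = 0 := fun z => by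
    simp only [Mz, Matrix.trace_sub, Matrix.trace_single_eq_same, sub_self]
  have dx : ∀ x, Mx (δ x) = (Mx x).map δ := fun x => by simp [Mx]
  have dy : ∀ y, My (δ y) = (My y).map δ := fun y => by simp [My]
  have dz : ∀ z, Mz (δ z) = (Mz z).map δ := fun z => by
    simp only [Mz]
    rw [map_sub_mat]
    simp
  have txy : ∀ x y, tw k (Mx x) (My y) = wedge k A x y := by
    intro x y
    simp only [tw, Mx, My]
    rw [Finset.sum_eq_single i0, Finset.sum_eq_single i1]
    · simp
    · intro j _ hj
      simp [Matrix.single_apply, Ne.symm hj]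
    · simp
    · intro j _ hj
      refine Finset.sum_eq_zero fun l _ => ?_
      simp [Matrix.single_apply, Ne.symm hj]
    · simp
  have tyz : ∀ y z, tw k (My y) (Mz z) = 0 := by
    intro y z
    simp only [tw, My, Mz]
    refine Finset.sum_eq_zero fun i _ => Finset.sum_eq_zero fun j _ => ?_
    by_cases h : i1 = i ∧ i0 = j
    · obtain ⟨rfl, rfl⟩ := h
      simp [Matrix.single_apply, h01, h10]
    · rw [Matrix.single_apply_of_ne _ _ _ _ _ h]
      simp
  have tzx : ∀ z x, tw k (Mz z) (Mx x) = 0 := by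
    intro z x
    rw [tw_swap]
    simp only [tw, Mx, Mz]
    rw [neg_eq_zero]
    refine Finset.sum_eq_zero fun i _ => Finset.sum_eq_zero fun j _ => ?_
    by_cases h : i0 = i ∧ i1 = j
    · obtain ⟨rfl, rfl⟩ := h
      simp [Matrix.single_apply, h01, h10]
    · rw [Matrix.single_apply_of_ne _ _ _ _ _ h]
      simp
  have key : ∀ x y z, (cbr k (cbr k (Mx x) (My y)) (Mz z) + cbr k (cbr k (My y) (Mz z)) (Mx x) +
      cbr k (cbr k (Mz z) (Mx x)) (My y)) + T.c • (Mz z).map (T.D x y) = 0 := by
    intro x y z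
    have h := jac_mat T (Mx x) (My y) (Mz z) (tx x) (ty y) (tz z)
    rw [txy, tyz, tzx, map_zero, map_zero_op, map_zero_op, TitsData.Dact_wedge, add_zero,
      add_zero] at h
    exact h
  have e0 := congrArg (fun M : Matrix (Fin N) (Fin N) A => M.map δ) (key x y z)
  have e1 := key (δ x) y z
  have e2 := key x (δ y) z
  have e3 := key x y (δ z)
  simp only [map_add_mat, cbr_map δ hδ, map_smul_mat, cbr_add_left] at e0
  rw [dx] at e1
  rw [dy] at e2
  rw [dz] at e3
  have h0 : (0 : Matrix (Fin N) (Fin N) A).map δ = 0 := by ext i j; simp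
  rw [h0] at e0
  have e4 : T.c • (((Mz z).map (T.D x y)).map δ - ((Mz z).map (T.D (δ x) y) +
      (Mz z).map (T.D x (δ y)) + ((Mz z).map δ).map (T.D x y))) = 0 := by
    simp only [smul_sub, smul_add]
    linear_combination (norm := abel) e0 - e1 - e2 - e3
  have e5 := (smul_eq_zero.1 e4).resolve_left hc
  have e6 := congrFun (congrFun e5 i0) i0
  simp only [Mz] at e6
  simpa [Matrix.sub_apply, sub_eq_zero, h01, h10] using e6

end maps

section brl

variable {k A : Type*} [Field k] [CharZero k] [NonUnitalNonAssocRing A] [Module k A]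
  [IsScalarTower k A A] [SMulCommClass k A A] {N : ℕ} [NeZero N] (T : TitsData k A N)

theorem br_add_left (x y z : TLie T) :
    TLie.br T (x + y) z = TLie.br T x z + TLie.br T y z := by
  apply TLie.ext
  · simp only [TLie.mat_br, TLie.mat_add, TLie.b_add, map_add, cbr_add_left, map_add_op,
      map_add_mat]
    abel
  · simp only [TLie.b_br, TLie.mat_add, TLie.b_add, map_add, tw_add_left, smul_add,
      LinearMap.add_apply]
    abel

theorem br_add_right (x y z : TLie T) :
    TLie.br T x (y + z) = TLie.br T x y + TLie.br T x z := by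
  apply TLie.ext
  · simp only [TLie.mat_br, TLie.mat_add, TLie.b_add, map_add, cbr_add_right, map_add_op,
      map_add_mat]
    abel
  · simp only [TLie.b_br, TLie.mat_add, TLie.b_add, map_add, tw_add_right, smul_add,
      LinearMap.add_apply]
    abel

theorem br_smul_left (c : k) (x y : TLie T) : TLie.br T (c • x) y = c • TLie.br T x y := by
  apply TLie.ext
  · simp only [TLie.mat_br, TLie.mat_smul, TLie.b_smul, map_smul, cbr_smul_left, map_smul_op,
      map_smul_mat, smul_sub, smul_add]
  · simp only [TLie.b_br, TLie.mat_smul, TLie.b_smul, map_smul, tw_smul_left, smul_add,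
      LinearMap.smul_apply, smul_comm c T.c]

theorem br_smul_right (c : k) (x y : TLie T) : TLie.br T x (c • y) = c • TLie.br T x y := by
  apply TLie.ext
  · simp only [TLie.mat_br, TLie.mat_smul, TLie.b_smul, map_smul, cbr_smul_right, map_smul_op,
      map_smul_mat, smul_sub, smul_add]
  · simp only [TLie.b_br, TLie.mat_smul, TLie.b_smul, map_smul, tw_smul_right, smul_add,
      smul_comm c T.c]

theorem br_self (x : TLie T) : TLie.br T x x = 0 := by
  apply TLie.ext
  · simp only [TLie.mat_br, cbr_self, zero_add, sub_self, TLie.mat_zero]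
  · simp only [TLie.b_br, tw_self, smul_zero, zero_add, Bact_self, TLie.b_zero]

theorem br_jacobi_of (hT : HNat T) (x y z : TLie T) : TLie.br T x (TLie.br T y z) =
    TLie.br T (TLie.br T x y) z + TLie.br T y (TLie.br T x z) := by
  have hD : ∀ (b b' : BSp k A) (M : Matrix (Fin N) (Fin N) A),
      M.map (T.Dact (T.Bact b b')) = (M.map (T.Dact b')).map (T.Dact b) -
        (M.map (T.Dact b)).map (T.Dact b') := by
    intro b b' M
    ext i j
    simp [Dact_Bact T hT]
  apply TLie.ext
  · have h := jac_mat T x.mat y.mat z.mat x.trace_mat y.trace_mat z.trace_mat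
    simp only [TLie.mat_br, TLie.mat_add, TLie.b_br, map_add, map_smul, map_add_op, map_smul_op,
      map_add_mat, map_sub_mat, cbr_add_left, cbr_add_right, cbr_sub_left, cbr_sub_right,
      cbr_map _ (T.Dact_mul _), hD]
    rw [cbr_swap (cbr k y.mat z.mat) x.mat] at h
    have h2 : cbr k (cbr k z.mat x.mat) y.mat = cbr k y.mat (cbr k x.mat z.mat) := by
      rw [cbr_swap (cbr k z.mat x.mat), cbr_swap z.mat x.mat, cbr_neg_right, neg_neg]
    rw [h2, tw_swap z.mat x.mat, map_neg, map_neg_op] at h
    simp only [smul_add, smul_neg] at h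
    rw [cbr_swap (x.mat.map (T.Dact z.b)) y.mat]
    linear_combination (norm := abel) -h
  · have h := tw_cyc (k := k) x.mat y.mat z.mat x.trace_mat y.trace_mat z.trace_mat
    simp only [TLie.mat_br, TLie.b_add, TLie.b_br, map_add, map_smul,
      tw_add_left, tw_add_right, tw_sub_left, tw_sub_right, tw_map, LinearMap.add_apply,
      LinearMap.smul_apply]
    rw [Bact_jac T hT x.b y.b z.b]
    have h3 := congrArg (fun w => T.c • w) h
    simp only [smul_add, smul_zero] at h3
    rw [tw_swap (cbr k y.mat z.mat), tw_swap (cbr k z.mat x.mat), cbr_swap z.mat x.mat,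
      tw_neg_right, neg_neg, smul_neg] at h3
    rw [Bact_swap T (tw k x.mat y.mat) z.b, tw_map, tw_swap (x.mat.map (T.Dact z.b)) y.mat]
    simp only [smul_add, smul_sub, smul_neg]
    linear_combination (norm := abel) -h3

theorem br_jacobi (hnat : ∀ a b x y z, T.D a b (T.D x y z) =
      T.D (T.D a b x) y z + T.D x (T.D a b y) z + T.D x y (T.D a b z)) (x y z : TLie T) :
    TLie.br T x (TLie.br T y z) = TLie.br T (TLie.br T x y) z + TLie.br T y (TLie.br T x z) :=
  br_jacobi_of T hnat x y z

theorem hnat_of (hN : 2 ≤ N) (hc : T.c ≠ 0) (a b x y z : A) : T.D a b (T.D x y z) =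
    T.D (T.D a b x) y z + T.D x (T.D a b y) z + T.D x y (T.D a b z) :=
  D_nat_of T hN hc (T.D a b) (T.D_mul a b) x y z

theorem br_jacobi' (hN : 2 ≤ N) (hc : T.c ≠ 0) (x y z : TLie T) :
    TLie.br T x (TLie.br T y z) = TLie.br T (TLie.br T x y) z + TLie.br T y (TLie.br T x z) :=
  br_jacobi T (hnat_of T hN hc) x y z

end brl

section gl

variable {k A : Type*} [Field k] [NonUnitalNonAssocRing A] [Module k A] {N : ℕ}

/-- left multiplication by a scalar matrix -/
def lm (X : Matrix (Fin N) (Fin N) k) (M : Matrix (Fin N) (Fin N) A) :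
    Matrix (Fin N) (Fin N) A := Matrix.of fun i j => ∑ l, X i l • M l j

/-- right multiplication by a scalar matrix -/
def rm (X : Matrix (Fin N) (Fin N) k) (M : Matrix (Fin N) (Fin N) A) :
    Matrix (Fin N) (Fin N) A := Matrix.of fun i j => ∑ l, X l j • M i l

theorem scomm_eq (X : Matrix (Fin N) (Fin N) k) (M : Matrix (Fin N) (Fin N) A) :
    scomm X M = lm X M - rm X M := rfl

theorem lm_sub (X : Matrix (Fin N) (Fin N) k) (M P : Matrix (Fin N) (Fin N) A) :
    lm X (M - P) = lm X M - lm X P := by
  ext i j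
  simp [lm, smul_sub, Finset.sum_sub_distrib]

theorem rm_sub (X : Matrix (Fin N) (Fin N) k) (M P : Matrix (Fin N) (Fin N) A) :
    rm X (M - P) = rm X M - rm X P := by
  ext i j
  simp [rm, smul_sub, Finset.sum_sub_distrib]

theorem lm_diag (X : Matrix (Fin N) (Fin N) k) (a : A) :
    lm X (Matrix.diagonal fun _ => a) = Matrix.of fun i j => X i j • a := by
  ext i j
  simp only [lm, Matrix.of_apply]
  rw [Finset.sum_eq_single j]
  · simp
  · intro l _ hl
    rw [Matrix.diagonal_apply_ne _ hl, smul_zero]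
  · simp

theorem rm_diag (X : Matrix (Fin N) (Fin N) k) (a : A) :
    rm X (Matrix.diagonal fun _ => a) = Matrix.of fun i j => X i j • a := by
  ext i j
  simp only [rm, Matrix.of_apply]
  rw [Finset.sum_eq_single i]
  · simp
  · intro l _ hl
    rw [Matrix.diagonal_apply_ne' _ hl, smul_zero]
  · simp

theorem lm_mulX (X Y : Matrix (Fin N) (Fin N) k) (M : Matrix (Fin N) (Fin N) A) :
    lm (X * Y) M = lm X (lm Y M) := by
  ext i j
  simp only [lm, Matrix.of_apply, Matrix.mul_apply, Finset.sum_smul, Finset.smul_sum, mul_smul]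
  exact Finset.sum_comm

theorem rm_mulX (X Y : Matrix (Fin N) (Fin N) k) (M : Matrix (Fin N) (Fin N) A) :
    rm (X * Y) M = rm Y (rm X M) := by
  ext i j
  simp only [rm, Matrix.of_apply, Matrix.mul_apply, Finset.sum_smul, Finset.smul_sum]
  rw [Finset.sum_comm]
  refine Finset.sum_congr rfl fun l _ => Finset.sum_congr rfl fun l' _ => ?_
  rw [← mul_smul, mul_comm]

theorem lm_rm (X Y : Matrix (Fin N) (Fin N) k) (M : Matrix (Fin N) (Fin N) A) :
    lm X (rm Y M) = rm Y (lm X M) := by
  ext i j
  simp only [lm, rm, Matrix.of_apply, Finset.smul_sum]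
  rw [Finset.sum_comm]
  refine Finset.sum_congr rfl fun l _ => Finset.sum_congr rfl fun l' _ => ?_
  rw [smul_comm]

variable [IsScalarTower k A A] [SMulCommClass k A A]

theorem lm_mul (X : Matrix (Fin N) (Fin N) k) (M P : Matrix (Fin N) (Fin N) A) :
    lm X M * P = lm X (M * P) := by
  ext i j
  simp only [lm, Matrix.of_apply, Matrix.mul_apply, Finset.sum_mul, Finset.smul_sum,
    smul_mul_assoc]
  exact Finset.sum_comm

theorem mul_rm (X : Matrix (Fin N) (Fin N) k) (M P : Matrix (Fin N) (Fin N) A) :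
    M * rm X P = rm X (M * P) := by
  ext i j
  simp only [rm, Matrix.of_apply, Matrix.mul_apply, Finset.mul_sum, Finset.smul_sum,
    mul_smul_comm]
  exact Finset.sum_comm

theorem rm_mul (X : Matrix (Fin N) (Fin N) k) (M P : Matrix (Fin N) (Fin N) A) :
    rm X M * P = M * lm X P := by
  ext i j
  simp only [lm, rm, Matrix.of_apply, Matrix.mul_apply, Finset.mul_sum, Finset.sum_mul,
    mul_smul_comm, smul_mul_assoc]
  exact Finset.sum_comm

theorem scomm_mul (X : Matrix (Fin N) (Fin N) k) (M P : Matrix (Fin N) (Fin N) A) :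
    scomm X (M * P) = scomm X M * P + M * scomm X P := by
  simp only [scomm_eq, sub_mul, mul_sub, lm_mul, mul_rm, rm_mul]
  abel

theorem scomm_cbr (X : Matrix (Fin N) (Fin N) k) (M P : Matrix (Fin N) (Fin N) A) :
    scomm X (cbr k M P) = cbr k (scomm X M) P + cbr k M (scomm X P) := by
  have hs : ∀ M P : Matrix (Fin N) (Fin N) A, scomm X (M - P) = scomm X M - scomm X P := by
    intro M P
    simp only [scomm_eq, lm_sub, rm_sub]
    abel
  have hd : ∀ a : A, scomm X (Matrix.diagonal fun _ => a) = 0 := by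
    intro a
    rw [scomm_eq, lm_diag, rm_diag, sub_self]
  simp only [cbr]
  rw [hs, hd, sub_zero, hs, scomm_mul, scomm_mul]
  have ht : (scomm X M * P - P * scomm X M).trace + (M * scomm X P - scomm X P * M).trace = 0 := by
    rw [← Matrix.trace_add]
    have : (scomm X M * P - P * scomm X M) + (M * scomm X P - scomm X P * M) =
        scomm X (M * P - P * M) := by
      rw [hs, scomm_mul, scomm_mul]
      abel
    rw [this, trace_scomm]
  have h2 := congrArg (fun a => (Matrix.diagonal fun _ : Fin N => (N : k)⁻¹ • a)) ht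
  simp only [smul_add, smul_zero, diag_add] at h2
  have h3 : (Matrix.diagonal fun _ : Fin N => (0 : A)) = 0 := Matrix.diagonal_zero
  rw [h3] at h2
  linear_combination (norm := abel) h2

omit [IsScalarTower k A A] [SMulCommClass k A A] in
theorem tw_scomm (X : Matrix (Fin N) (Fin N) k) (M P : Matrix (Fin N) (Fin N) A) :
    tw k (scomm X M) P + tw k M (scomm X P) = 0 := by
  have h1 : tw k (lm X M) P = tw k M (rm X P) := by
    simp only [tw, lm, rm, Matrix.of_apply, map_sum, LinearMap.sum_apply, map_smul,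
      LinearMap.smul_apply]
    calc ∑ i, ∑ j, ∑ l, X i l • (wedge k A (M l j)) (P j i)
        = ∑ i, ∑ l, ∑ j, X i l • (wedge k A (M l j)) (P j i) :=
          Finset.sum_congr rfl fun i _ => Finset.sum_comm
      _ = ∑ l, ∑ i, ∑ j, X i l • (wedge k A (M l j)) (P j i) := Finset.sum_comm
      _ = ∑ l, ∑ j, ∑ i, X i l • (wedge k A (M l j)) (P j i) :=
          Finset.sum_congr rfl fun i _ => Finset.sum_comm
  have h2 : tw k (rm X M) P = tw k M (lm X P) := by
    simp only [tw, lm, rm, Matrix.of_apply, map_sum, LinearMap.sum_apply, map_smul,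
      LinearMap.smul_apply]
    refine Finset.sum_congr rfl fun i _ => ?_
    exact Finset.sum_comm
  rw [scomm_eq, scomm_eq, tw_sub_left, tw_sub_right, h1, h2]
  abel

end gl

section glact

variable {k A : Type*} [Field k] [CharZero k] [NonUnitalNonAssocRing A] [Module k A]
  [IsScalarTower k A A] [SMulCommClass k A A] {N : ℕ} [NeZero N] (T : TitsData k A N)

theorem scomm_add_mat (X : Matrix (Fin N) (Fin N) k) (M P : Matrix (Fin N) (Fin N) A) :
    scomm X (M + P) = scomm X M + scomm X P := by
  ext i j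
  simp only [scomm, Matrix.of_apply, Matrix.add_apply, smul_add, Finset.sum_add_distrib]
  abel

theorem scomm_sub_mat (X : Matrix (Fin N) (Fin N) k) (M P : Matrix (Fin N) (Fin N) A) :
    scomm X (M - P) = scomm X M - scomm X P := by
  ext i j
  simp only [scomm, Matrix.of_apply, Matrix.sub_apply, smul_sub, Finset.sum_sub_distrib]
  abel

theorem scomm_map (X : Matrix (Fin N) (Fin N) k) (M : Matrix (Fin N) (Fin N) A) (f : A →ₗ[k] A) :
    scomm X (M.map f) = (scomm X M).map f := by
  ext i j
  simp [scomm]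

theorem glAct_br (X : Matrix (Fin N) (Fin N) k) (x y : TLie T) :
    glAct T X (TLie.br T x y) = TLie.br T (glAct T X x) y + TLie.br T x (glAct T X y) := by
  apply TLie.ext
  · simp only [mat_glAct, TLie.mat_br, TLie.mat_add, b_glAct, map_zero, map_zero_op,
      scomm_add_mat, scomm_sub_mat, scomm_cbr, scomm_map]
    abel
  · simp only [b_glAct, TLie.b_br, TLie.b_add, mat_glAct, map_zero, LinearMap.zero_apply,
      add_zero]
    rw [← smul_add, tw_scomm, smul_zero]

theorem glAct_add (X Y : Matrix (Fin N) (Fin N) k) :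
    glAct T (X + Y) = glAct T X + glAct T Y := by
  apply LinearMap.ext
  intro x
  apply TLie.ext
  · rw [LinearMap.add_apply, TLie.mat_add, mat_glAct, mat_glAct, mat_glAct]
    ext i j
    simp only [scomm, Matrix.of_apply, Matrix.add_apply, add_smul, Finset.sum_add_distrib]
    abel
  · rw [LinearMap.add_apply, TLie.b_add, b_glAct, b_glAct, b_glAct, add_zero]

theorem glAct_smul (c : k) (X : Matrix (Fin N) (Fin N) k) :
    glAct T (c • X) = c • glAct T X := by
  apply LinearMap.ext
  intro x
  apply TLie.ext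
  · rw [LinearMap.smul_apply, TLie.mat_smul, mat_glAct, mat_glAct]
    ext i j
    simp only [scomm, Matrix.of_apply, Matrix.smul_apply, smul_eq_mul, mul_smul, smul_sub,
      Finset.smul_sum]
  · rw [LinearMap.smul_apply, TLie.b_smul, b_glAct, b_glAct, smul_zero]

theorem glAct_one : glAct T (1 : Matrix (Fin N) (Fin N) k) = 0 := by
  apply LinearMap.ext
  intro x
  apply TLie.ext
  · rw [LinearMap.zero_apply, TLie.mat_zero, mat_glAct]
    ext i j
    simp [scomm, Matrix.one_apply]
  · rw [LinearMap.zero_apply, TLie.b_zero, b_glAct]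

theorem glAct_comm (X Y : Matrix (Fin N) (Fin N) k) :
    glAct T (X * Y - Y * X) = glAct T X ∘ₗ glAct T Y - glAct T Y ∘ₗ glAct T X := by
  apply LinearMap.ext
  intro x
  apply TLie.ext
  · rw [LinearMap.sub_apply, LinearMap.comp_apply, LinearMap.comp_apply, TLie.mat_sub, mat_glAct,
      mat_glAct, mat_glAct, mat_glAct, mat_glAct]
    have hs : ∀ (X Y : Matrix (Fin N) (Fin N) k) (M : Matrix (Fin N) (Fin N) A),
        scomm (X - Y) M = scomm X M - scomm Y M := by
      intro X Y M
      ext i j
      simp only [scomm, Matrix.of_apply, Matrix.sub_apply, sub_smul, Finset.sum_sub_distrib]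
      abel
    rw [hs]
    simp only [scomm_eq, lm_mulX, rm_mulX, lm_sub, rm_sub, lm_rm]
    abel
  · rw [LinearMap.sub_apply, LinearMap.comp_apply, LinearMap.comp_apply, TLie.b_sub, b_glAct,
      b_glAct, b_glAct, sub_zero]

end glact

end Pool.Agent.Y484.KM
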